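import Mathlib
import Pool.Agent.R243.WN.Weights

set_option autoImplicit false

/-!
# The dyadic Cesaro means are not uniformly bounded from `H_{1/(1+α)}` to `L_{1/(1+α)}`

The extremal functions are the atoms `f = r_N D_{2^N}`. Up to sign `A_{2^{N+1}}^α σ_{2^{N+1}}^α f`
is the kernel sum `Σ_{j<2^N} A_j^{α-1} D_j` off `I_N(0)`, and its `p`-th power has integral bounded
below on each of the disjoint sets `B_s` (`x_j = 0` for `j < s`, `x_s = x_{s+1} = 1`), `s ≤ N - 2`.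
-/

namespace Pool.Agent.Results.MP_b4b6e5_an.EndpointFails

open Filter Topology MeasureTheory Set
open scoped ENNReal NNReal
open Pool.Agent.R243.WN

/-- the Cesaro means `σ_n^α f = (1/A_n^α) Σ_{k=1}^n A_{n-k}^{α-1} S_k f` -/
noncomputable def sigma (α : ℝ) (n : ℕ) (f : ℕ → G → ℝ) (x : G) : ℝ :=
  (1 / A α n) * ∑ k ∈ Finset.Icc 1 n, A (α - 1) (n - k) * S f k x

theorem result (α : ℝ) (h0 : 0 < α) (h1 : α < 1) (C : ℝ≥0) :
    ∃ f : ℕ → G → ℝ, Martingale f F mu ∧ hpNorm (1 / (1 + α)) f < ⊤ ∧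
      ∃ n : ℕ, C * hpNorm (1 / (1 + α)) f < pNorm (1 / (1 + α)) (sigma α (2 ^ n) f) := by
  obtain ⟨N, hN⟩ := unbounded h0 (good_C h0 h1) (Z := A α) (C2 := 4 ^ α / α)
    (fun N => A_pos (by linarith) _) (A_upper h0 h1) C
  refine ⟨atom N, atom_martingale N, ?_, N + 1, ?_⟩
  · rw [atom_norm h0]
    exact ENNReal.ofReal_lt_top
  · refine hN.trans_le (le_of_eq ?_)
    congr 1
    funext x
    unfold sigma nor
    rw [one_div]

end Pool.Agent.Results.MP_b4b6e5_an.EndpointFails
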